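import Pool.Agent.Helper28_TP.StS

/-!
Squad TPM, module AN8: number of connected sets for the eight neighbours.
-/

set_option autoImplicit false

namespace Pool.Agent.TP.H26

open Pool.Agent.Helper33_FPP (dst)

/-- the graph of the eight neighbours -/
def S8 : SimpleGraph (ℤ × ℤ) where
  Adj x y := x ≠ y ∧ dst x y ≤ 1
  symm := ⟨by
    rintro ⟨a, b⟩ ⟨c, d⟩ ⟨h1, h2⟩
    refine ⟨h1.symm, ?_⟩
    simp only [dst] at h2 ⊢
    omega⟩
  loopless := ⟨fun x h => h.1 rfl⟩

/-- the eight neighbours -/
def nb8 (x : ℤ × ℤ) : Finset (ℤ × ℤ) :=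
  {(x.1 + 1, x.2), (x.1 - 1, x.2), (x.1, x.2 + 1), (x.1, x.2 - 1),
    (x.1 + 1, x.2 + 1), (x.1 + 1, x.2 - 1), (x.1 - 1, x.2 + 1), (x.1 - 1, x.2 - 1)}

lemma mem_nb8 {x y : ℤ × ℤ} (h : S8.Adj x y) : y ∈ nb8 x := by
  obtain ⟨a, b⟩ := x
  obtain ⟨c, d⟩ := y
  obtain ⟨h1, h2⟩ := h
  simp only [dst, sup_le_iff] at h2
  simp only [ne_eq, Prod.mk.injEq] at h1
  simp only [nb8, Finset.mem_insert, Finset.mem_singleton, Prod.mk.injEq]
  omega

lemma card_nb8 (x : ℤ × ℤ) : (nb8 x).card ≤ 8 := by
  unfold nb8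
  refine (Finset.card_insert_le _ _).trans (Nat.succ_le_succ ?_)
  refine (Finset.card_insert_le _ _).trans (Nat.succ_le_succ ?_)
  refine (Finset.card_insert_le _ _).trans (Nat.succ_le_succ ?_)
  refine (Finset.card_insert_le _ _).trans (Nat.succ_le_succ ?_)
  exact Finset.card_le_four

/-- Vertex lists of walks with `m` steps from `x`. -/
def G8 : ℕ → (ℤ × ℤ) → Finset (List (ℤ × ℤ))
  | 0, x => {[x]}
  | (m + 1), x => (nb8 x).biUnion (fun v => (G8 m v).image (fun l => x :: l))

lemma card_G8 : ∀ (m : ℕ) (x : ℤ × ℤ), (G8 m x).card ≤ 8 ^ m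
  | 0, x => by simp [G8]
  | (m + 1), x => by
    unfold G8
    calc _ ≤ ∑ v ∈ nb8 x, ((G8 m v).image (fun l => x :: l)).card := Finset.card_biUnion_le
      _ ≤ ∑ v ∈ nb8 x, 8 ^ m :=
          Finset.sum_le_sum fun v _ => Finset.card_image_le.trans (card_G8 m v)
      _ = (nb8 x).card * 8 ^ m := by simp
      _ ≤ 8 * 8 ^ m := Nat.mul_le_mul_right _ (card_nb8 x)
      _ = 8 ^ (m + 1) := by ring

lemma mem_G8 {x y : ℤ × ℤ} (q : S8.Walk x y) : q.support ∈ G8 q.length x := by
  induction q with
  | nil => simp [G8]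
  | @cons a b c h q ih =>
    simp only [SimpleGraph.Walk.support_cons, SimpleGraph.Walk.length_cons]
    unfold G8
    rw [Finset.mem_biUnion]
    refine ⟨b, mem_nb8 h, ?_⟩
    rw [Finset.mem_image]
    exact ⟨q.support, ih, rfl⟩

lemma exists_cross {α : Type*} {r : α → α → Prop} {A : Set α} {x y : α}
    (h : Relation.ReflTransGen r x y) (hx : x ∈ A) (hy : y ∉ A) : ∃ u ∈ A, ∃ v ∉ A, r u v := by
  induction h with
  | refl => exact absurd hx hy
  | @tail b c _ hbc ih =>
    by_cases hb : b ∈ A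
    · exact ⟨b, hb, c, hy, hbc⟩
    · exact ih hb

/-- A proper subset of a connected set is adjacent to a further vertex. -/
lemma exists_adj8 {S A : Finset (ℤ × ℤ)} {z : ℤ × ℤ} (hz : z ∈ A) (hAS : A ⊆ S)
    (hne : A.card < S.card) (hS : SC S) : ∃ u ∈ A, ∃ v ∈ S, v ∉ A ∧ S8.Adj u v := by
  classical
  obtain ⟨s, hs, hsA⟩ : ∃ s ∈ S, s ∉ A := by
    by_contra h
    push Not at h
    exact absurd (Finset.card_le_card (fun s hs => h s hs : S ⊆ A)) (by omega)
  obtain ⟨u, hu, v, hv, h1, h2⟩ := exists_cross (A := (A : Set (ℤ × ℤ))) (hS z (hAS hz) s hs)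
    (by simpa using hz) (by simpa using hsA)
  have hu' : u ∈ A := by simpa using hu
  have hv' : v ∉ A := by simpa using hv
  exact ⟨u, hu', v, h1, hv', fun e => hv' (e ▸ hu'), h2⟩

lemma exists_walk8 {S : Finset (ℤ × ℤ)} {z : ℤ × ℤ} (hz : z ∈ S) (hS : SC S) (j : ℕ)
    (hj : j < S.card) :
    ∃ q : S8.Walk z z, q.length = 2 * j ∧ q.support.toFinset ⊆ S ∧
      q.support.toFinset.card = j + 1 := by
  classical
  induction j with
  | zero => exact ⟨.nil, rfl, by simpa using hz, by simp⟩
  | succ j ih =>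
    obtain ⟨q, h1, h2, h3⟩ := ih (by omega)
    obtain ⟨u, hu, v, hv, hvA, huv⟩ := exists_adj8 (A := q.support.toFinset) (z := z) (by simp) h2
      (by omega) hS
    have hu' : u ∈ q.support := by simpa using hu
    refine ⟨(q.takeUntil u hu').append (.cons huv (.cons huv.symm (q.dropUntil u hu'))),
      ?_, ?_, ?_⟩
    · have := congrArg SimpleGraph.Walk.length (q.take_spec hu')
      rw [SimpleGraph.Walk.length_append] at this
      simp only [SimpleGraph.Walk.length_append, SimpleGraph.Walk.length_cons]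
      omega
    all_goals
      have hsup : ((q.takeUntil u hu').append (.cons huv (.cons huv.symm
          (q.dropUntil u hu')))).support.toFinset = insert v q.support.toFinset := by
        ext w
        have h4 : w ∈ q.support ↔
            w ∈ (q.takeUntil u hu').support ∨ w ∈ (q.dropUntil u hu').support := by
          rw [← SimpleGraph.Walk.mem_support_append_iff, q.take_spec hu']
        simp only [List.mem_toFinset, SimpleGraph.Walk.mem_support_append_iff,
          SimpleGraph.Walk.support_cons, List.mem_cons, Finset.mem_insert, h4]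
        have h5 : u ∈ (q.takeUntil u hu').support := SimpleGraph.Walk.end_mem_support _
        constructor
        · rintro (h | rfl | rfl | h)
          · exact Or.inr (Or.inl h)
          · exact Or.inr (Or.inl h5)
          · exact Or.inl rfl
          · exact Or.inr (Or.inr h)
        · rintro (rfl | h | h)
          · exact Or.inr (Or.inr (Or.inl rfl))
          · exact Or.inl h
          · exact Or.inr (Or.inr (Or.inr h))
      rw [hsup]
    · exact Finset.insert_subset hv h2
    · rw [Finset.card_insert_of_notMem hvA, h3]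

/-- AN8. -/
theorem an8 : An8Stmt := by
  classical
  intro n z 𝒜 h
  cases n with
  | zero =>
    have : 𝒜 = ∅ := by
      rw [Finset.eq_empty_iff_forall_notMem]
      intro S hS
      obtain ⟨h1, h2, -⟩ := h S hS
      rw [Finset.card_eq_zero] at h2
      simp [h2] at h1
    simp [this]
  | succ n =>
    have hsub : 𝒜 ⊆ (G8 (2 * n) z).image List.toFinset := by
      intro S hS
      obtain ⟨h1, h2, h3⟩ := h S hS
      obtain ⟨q, hq1, hq2, hq3⟩ := exists_walk8 h1 h3 n (by omega)
      rw [Finset.mem_image]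
      refine ⟨q.support, hq1 ▸ mem_G8 q, ?_⟩
      exact Finset.eq_of_subset_of_card_le hq2 (by omega)
    calc 𝒜.card ≤ ((G8 (2 * n) z).image List.toFinset).card := Finset.card_le_card hsub
      _ ≤ (G8 (2 * n) z).card := Finset.card_image_le
      _ ≤ 8 ^ (2 * n) := card_G8 _ _
      _ = 64 ^ n := by rw [pow_mul]; norm_num
      _ ≤ 64 ^ (n + 1) := Nat.pow_le_pow_right (by norm_num) (by omega)

end Pool.Agent.TP.H26
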