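import Pool.Agent.Helper28_TP.DyS

/-!
# Module MTP: measurability of the percolation time
-/

set_option autoImplicit false

namespace Pool.Agent.TP.H26

open MeasureTheory ProbabilityTheory Pool.Agent.TP

variable {k : ℕ}

/-- Reachability in `n` steps. -/
def rch {V : Type} (G : SimpleGraph V) : ℕ → V → V → Prop
  | 0, u, v => u = v
  | n + 1, u, v => ∃ w, G.Adj u w ∧ rch G n w v

theorem reachable_iff_rch {V : Type} (G : SimpleGraph V) (u v : V) :
    G.Reachable u v ↔ ∃ n, rch G n u v := by
  constructor
  · rintro ⟨p⟩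
    induction p with
    | nil => exact ⟨0, rfl⟩
    | cons h p ih =>
      obtain ⟨n, hn⟩ := ih
      exact ⟨n + 1, _, h, hn⟩
  · rintro ⟨n, hn⟩
    induction n generalizing u with
    | zero => exact hn ▸ SimpleGraph.Reachable.refl u
    | succ n ih =>
      obtain ⟨w, hw, hn⟩ := hn
      exact hw.reachable.trans (ih w hn)

theorem meas_rch {Ω V : Type} [MeasurableSpace Ω] [Countable V] (G : Ω → SimpleGraph V)
    (hG : ∀ u v, MeasurableSet {x | (G x).Adj u v}) (n : ℕ) :
    ∀ u v, MeasurableSet {x | rch (G x) n u v} := by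
  induction n with
  | zero =>
    intro u v
    by_cases h : u = v
    · simp [rch, h]
    · simp [rch, h]
  | succ n ih =>
    intro u v
    have : {x | rch (G x) (n + 1) u v} = ⋃ w, {x | (G x).Adj u w} ∩ {x | rch (G x) n w v} := by
      ext x
      simp [rch]
    rw [this]
    exact MeasurableSet.iUnion fun w => (hG u w).inter (ih w v)

theorem meas_reachable {Ω V : Type} [MeasurableSpace Ω] [Countable V] (G : Ω → SimpleGraph V)
    (hG : ∀ u v, MeasurableSet {x | (G x).Adj u v}) (u v : V) :
    MeasurableSet {x | (G x).Reachable u v} := by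
  have : {x | (G x).Reachable u v} = ⋃ n, {x | rch (G x) n u v} := by
    ext x
    simp [reachable_iff_rch]
  rw [this]
  exact MeasurableSet.iUnion fun n => meas_rch G hG n u v

theorem inInf_iff {V : Type} (G : SimpleGraph V) (v : V) :
    InInf G v ↔ ∀ F : Finset V, ∃ u, u ∉ F ∧ G.Reachable v u := by
  unfold InInf
  constructor
  · intro h F
    obtain ⟨u, hu, hF⟩ := h.exists_notMem_finset F
    exact ⟨u, hF, hu⟩
  · intro h hfin
    obtain ⟨u, hu, hr⟩ := h hfin.toFinset
    exact hu (hfin.mem_toFinset.2 hr)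

theorem meas_inInf {Ω V : Type} [MeasurableSpace Ω] [Countable V] (G : Ω → SimpleGraph V)
    (hG : ∀ u v, MeasurableSet {x | (G x).Adj u v}) (v : V) :
    MeasurableSet {x | InInf (G x) v} := by
  have : {x | InInf (G x) v} = ⋂ F : Finset V, ⋃ u : V, {x | u ∉ F ∧ (G x).Reachable v u} := by
    ext x
    simp [inInf_iff]
  rw [this]
  refine MeasurableSet.iInter fun F => MeasurableSet.iUnion fun u => ?_
  by_cases hu : u ∈ F
  · simp [hu]
  · simpa [hu] using meas_reachable G hG v u

theorem meas_walk {Ω : Type} [MeasurableSpace Ω] (f : Ω → Sp k) (g : Ω → ℕ → Sp k)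
    (hf : Measurable f) (hg : Measurable g) (i : ℕ) : Measurable fun x => walk (f x) (g x) i := by
  unfold walk
  refine measurable_pi_lambda _ fun a => ?_
  refine ((measurable_pi_apply a).comp hf).add ?_
  refine Finset.measurable_sum _ fun j _ => ?_
  exact (measurable_pi_apply a).comp ((measurable_pi_apply j).comp hg)

theorem meas_pos (i : ℕ) (v : Pt k × ℕ) : Measurable fun ω : Cf k => pos ω i v := by
  unfold pos
  have h1 : Measurable fun ω : Cf k => (ω v.1).2 v.2 :=
    (measurable_pi_apply v.2).comp (measurable_snd.comp (measurable_pi_apply v.1))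
  refine meas_walk _ _ ?_ (measurable_snd.comp h1) i
  refine measurable_pi_lambda _ fun a => ?_
  exact measurable_const.add ((measurable_pi_apply a).comp (measurable_fst.comp h1))

theorem meas_alive (v : Pt k × ℕ) : MeasurableSet {ω : Cf k | alive ω v} := by
  have h1 : Measurable fun ω : Cf k => (ω v.1).1 := measurable_fst.comp (measurable_pi_apply v.1)
  exact h1 (MeasurableSet.of_discrete (s := {n : ℕ | v.2 < n}))

theorem meas_near {Ω : Type} [MeasurableSpace Ω] (r : ℝ) (f g : Ω → Sp k)
    (hf : Measurable f) (hg : Measurable g) : MeasurableSet {x | near r (f x) (g x)} := by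
  unfold near
  refine measurableSet_le ?_ measurable_const
  refine Finset.measurable_sum _ fun a _ => ?_
  exact (((measurable_pi_apply a).comp hf).sub ((measurable_pi_apply a).comp hg)).pow_const 2

theorem meas_adj (r : ℝ) (i : ℕ) (u v : Option (Pt k × ℕ)) :
    MeasurableSet {x : Cf k × (ℕ → Sp k) | (graphWith r x.1 (walk 0 x.2 i) i).Adj u v} := by
  have hA : ∀ u : Option (Pt k × ℕ),
      MeasurableSet {x : Cf k × (ℕ → Sp k) | ∀ w ∈ u, alive x.1 w} := by
    intro u
    cases u with
    | none => simp
    | some w =>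
      simp only [Option.mem_def, Option.some.injEq, forall_eq']
      exact measurable_fst (meas_alive w)
  have hp : ∀ u : Option (Pt k × ℕ),
      Measurable fun x : Cf k × (ℕ → Sp k) => u.elim (walk 0 x.2 i) (pos x.1 i) := by
    intro u
    cases u with
    | none => exact meas_walk _ _ measurable_const measurable_snd i
    | some w => exact (meas_pos i w).comp measurable_fst
  by_cases huv : u = v
  · subst huv
    simp
  · have : {x : Cf k × (ℕ → Sp k) | (graphWith r x.1 (walk 0 x.2 i) i).Adj u v} =
        ({x | ∀ w ∈ u, alive x.1 w} ∩ ({x | ∀ w ∈ v, alive x.1 w} ∩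
          {x | near r (u.elim (walk 0 x.2 i) (pos x.1 i)) (v.elim (walk 0 x.2 i) (pos x.1 i))})) ∪
        ({x | ∀ w ∈ v, alive x.1 w} ∩ ({x | ∀ w ∈ u, alive x.1 w} ∩
          {x | near r (v.elim (walk 0 x.2 i) (pos x.1 i))
            (u.elim (walk 0 x.2 i) (pos x.1 i))})) := by
      ext x
      simp only [graphWith, geo, SimpleGraph.fromRel_adj, Set.mem_ofPred_eq, Set.mem_union,
        Set.mem_inter_iff, ne_eq, huv, not_false_eq_true, true_and]
    rw [this]
    exact ((hA u).inter ((hA v).inter (meas_near r _ _ (hp u) (hp v)))).union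
      ((hA v).inter ((hA u).inter (meas_near r _ _ (hp v) (hp u))))

/-- MTP. -/
theorem mtp : MtpStmt := by
  intro k r t
  have : {x : Cf k × (ℕ → Sp k) | (t : ℕ∞) ≤ Tperc r x.1 x.2} =
      ⋂ i : ℕ, {x | i < t → ¬ InInf (graphWith r x.1 (walk 0 x.2 i) i) none} := by
    ext x
    simp only [Tperc, Set.mem_ofPred_eq, le_sInf_iff, Set.mem_iInter]
    constructor
    · intro h i hi hinf
      have := h i ⟨i, hinf, rfl⟩
      rw [Nat.cast_le] at this
      omega
    · rintro h b ⟨i, hinf, rfl⟩
      rw [Nat.cast_le]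
      by_contra hlt
      exact h i (by omega) hinf
  rw [this]
  refine MeasurableSet.iInter fun i => ?_
  by_cases hi : i < t
  · simp only [hi, true_imp_iff]
    exact (meas_inInf (fun x : Cf k × (ℕ → Sp k) => graphWith r x.1 (walk 0 x.2 i) i)
      (meas_adj r i) none).compl
  · simp [hi]

end Pool.Agent.TP.H26
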