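import Pool.Agent.Helper28_TP.DyS

/-!
# Module NBG: the neighbourhood of cells is good
-/

set_option autoImplicit false

namespace Pool.Agent.TP.H26

open Pool.Agent.TP

variable {k : ℕ}

theorem mem_Nb {r h : ℝ} {z : Pt k} : z ∈ Nb k r h ↔
    (∀ i, |z i| ≤ (⌈r / h⌉₊ : ℤ)) ∧ ∑ a, ((|z a| + 1 : ℤ) * h) ^ 2 ≤ r ^ 2 := by
  classical
  unfold Nb
  rw [Finset.mem_filter, mem_bx]
  simp

theorem Nb_of_abs_le {r h : ℝ} (hh : 0 < h) {z z' : Pt k} (σ : Equiv.Perm (Fin (k + 2)))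
    (hz : z ∈ Nb k r h) (hle : ∀ a, |z' a| ≤ |z (σ a)|) : z' ∈ Nb k r h := by
  rw [mem_Nb] at hz ⊢
  refine ⟨fun i => (hle i).trans (hz.1 _), le_trans ?_ hz.2⟩
  rw [← Equiv.sum_comp σ (fun a => ((|z a| + 1 : ℤ) * h) ^ 2)]
  refine Finset.sum_le_sum fun a _ => ?_
  have h1 : (0 : ℝ) ≤ ((|z' a| + 1 : ℤ) : ℝ) := by
    have := abs_nonneg (z' a)
    exact_mod_cast (by omega : (0 : ℤ) ≤ |z' a| + 1)
  have h2 : ((|z' a| + 1 : ℤ) : ℝ) ≤ ((|z (σ a)| + 1 : ℤ) : ℝ) := by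
    exact_mod_cast (by have := hle a; omega : |z' a| + 1 ≤ |z (σ a)| + 1)
  exact pow_le_pow_left₀ (mul_nonneg h1 hh.le) (mul_le_mul_of_nonneg_right h2 hh.le) 2

/-- NBG. -/
theorem nbg : NbgStmt := by
  intro k r h hr hh hrh
  have hunit : (Pi.single 0 (1 : ℤ) : Pt k) ∈ Nb k r h := by
    rw [mem_Nb]
    constructor
    · intro i
      have h1 : 0 < ⌈r / h⌉₊ := Nat.ceil_pos.2 (div_pos hr hh)
      by_cases hi : i = 0
      · subst hi
        rw [Pi.single_eq_same, abs_one]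
        exact_mod_cast h1
      · simp [Pi.single_eq_of_ne hi]
    · have h1 : ∑ a : Fin (k + 2), ((|(Pi.single 0 (1 : ℤ) : Pt k) a| + 1 : ℤ) * h) ^ 2 =
          (k + 5) * h ^ 2 := by
        rw [Fin.sum_univ_succ]
        have h2 : ∀ a : Fin (k + 1), (((|(Pi.single 0 (1 : ℤ) : Pt k) a.succ| + 1 : ℤ) : ℝ) * h) ^ 2
            = h ^ 2 := by
          intro a
          rw [Pi.single_eq_of_ne (Fin.succ_ne_zero a)]
          simp
        rw [Finset.sum_congr rfl (fun a _ => h2 a)]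
        simp
        ring
      rw [h1]
      have h3 : (2 * Real.sqrt (k + 2) * h) ^ 2 ≤ r ^ 2 :=
        pow_le_pow_left₀ (by positivity) hrh 2
      have h4 : Real.sqrt ((k : ℝ) + 2) ^ 2 = k + 2 := Real.sq_sqrt (by positivity)
      have h5 : (2 * Real.sqrt (k + 2) * h) ^ 2 = 4 * (k + 2) * h ^ 2 := by
        rw [mul_pow, mul_pow, h4]
        ring
      rw [h5] at h3
      refine le_trans ?_ h3
      have : (0 : ℝ) ≤ (3 * k + 3) * h ^ 2 := by positivity
      nlinarith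
  obtain ⟨⟨z, i⟩, hzi, hmax⟩ := Finset.exists_max_image
    (Nb k r h ×ˢ (Finset.univ : Finset (Fin (k + 2)))) (fun p => (p.1 p.2).natAbs)
    ⟨(Pi.single 0 1, 0), Finset.mk_mem_product hunit (Finset.mem_univ _)⟩
  have hz : z ∈ Nb k r h := (Finset.mem_product.1 hzi).1
  refine ⟨(z i).natAbs, ?_, ?_, ?_, ?_, hunit⟩
  · intro z' hz' π
    exact Nb_of_abs_le hh π hz' (fun a => le_rfl)
  · intro z' hz' j
    refine Nb_of_abs_le hh (Equiv.refl _) hz' (fun a => ?_)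
    by_cases ha : a = j
    · subst ha
      simp
    · simp [Function.update_of_ne ha]
  · intro z' hz' j
    have := hmax (z', j) (Finset.mk_mem_product hz' (Finset.mem_univ _))
    simp only at this
    rw [Int.abs_eq_natAbs]
    exact_mod_cast this
  · refine Nb_of_abs_le hh (Equiv.swap 0 i) hz (fun a => ?_)
    by_cases ha : a = 0
    · subst ha
      simp
    · simp [Pi.single_eq_of_ne ha]

end Pool.Agent.TP.H26
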