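import Pool.Agent.Helper28_TP.DyS
import Pool.Agent.Helper28_TP.Inst

/-!
# Module VOID: probability that no node belongs to a set of trajectories
-/

set_option autoImplicit false

namespace Pool.Agent.TP.H26

open MeasureTheory ProbabilityTheory Pool.Agent.TP Filter Topology

/-- The trajectory of a node of the cell `z`. -/
def trj {k : ℕ} (z : Pt k) (m : Mk k) : Sp k × (ℕ → Sp k) := (fun a => (z a : ℝ) + m.1 a, m.2)

theorem meas_trj {k : ℕ} (z : Pt k) : Measurable (trj z) := by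
  unfold trj
  refine Measurable.prodMk ?_ measurable_snd
  exact measurable_pi_lambda _ fun a =>
    measurable_const.add ((measurable_pi_apply a).comp measurable_fst)

/-- No node in the cells `Z`. -/
def evZ {k : ℕ} (𝒜 : Set (Sp k × (ℕ → Sp k))) (Z : Finset (Pt k)) : Set (Cf k) :=
  {ω | ∀ z ∈ Z, ∀ j < (ω z).1, trj z ((ω z).2 j) ∉ 𝒜}

theorem meas_evZ {k : ℕ} (𝒜 : Set (Sp k × (ℕ → Sp k))) (h𝒜 : MeasurableSet 𝒜)
    (Z : Finset (Pt k)) : MeasurableSet (evZ 𝒜 Z) := by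
  have : evZ 𝒜 Z = ⋂ z ∈ Z, ⋂ j : ℕ, {ω : Cf k | j < (ω z).1}ᶜ ∪
      {ω : Cf k | trj z ((ω z).2 j) ∈ 𝒜}ᶜ := by
    ext ω
    simp only [evZ, Set.mem_ofPred_eq, Set.mem_iInter, Set.mem_union, Set.mem_compl_iff]
    refine forall_congr' fun z => forall_congr' fun hz => forall_congr' fun j => ?_
    tauto
  rw [this]
  refine Finset.measurableSet_biInter _ fun z _ => MeasurableSet.iInter fun j => ?_
  refine MeasurableSet.union (MeasurableSet.compl ?_) (MeasurableSet.compl ?_)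
  · have h1 : Measurable fun ω : Cf k => (ω z).1 := measurable_fst.comp (measurable_pi_apply z)
    exact h1 (MeasurableSet.of_discrete (s := {n : ℕ | j < n}))
  · have h1 : Measurable fun ω : Cf k => trj z ((ω z).2 j) :=
      (meas_trj z).comp ((measurable_pi_apply j).comp (measurable_snd.comp (measurable_pi_apply z)))
    exact h1 h𝒜

open Classical in
theorem conf_evZ (hLf : LfStmt) {k : ℕ} (lam s : ℝ) (hlam : 0 ≤ lam)
    (𝒜 : Set (Sp k × (ℕ → Sp k))) (h𝒜 : MeasurableSet 𝒜) (Z : Finset (Pt k)) :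
    confLaw k lam s (evZ 𝒜 Z) = ∏ z ∈ Z,
      ENNReal.ofReal (Real.exp (-(lam * (markLaw k s (trj z ⁻¹' 𝒜)).toReal))) := by
  have hm : ∀ z : Pt k, MeasurableSet (trj z ⁻¹' 𝒜) := fun z => meas_trj z h𝒜
  have h := hLf k lam s hlam Z (fun z => ((trj z ⁻¹' 𝒜)ᶜ).indicator 1)
    (fun z => measurable_one.indicator (hm z).compl)
    (fun z m => Set.indicator_le_self' (fun _ _ => zero_le) m)
  have h1 : ∫⁻ ω, ∏ z ∈ Z, ∏ j ∈ Finset.range (ω z).1,
      ((trj z ⁻¹' 𝒜)ᶜ).indicator (1 : Mk k → ENNReal) ((ω z).2 j) ∂(confLaw k lam s) =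
      confLaw k lam s (evZ 𝒜 Z) := by
    rw [← lintegral_indicator_one (meas_evZ 𝒜 h𝒜 Z)]
    congr 1
    funext ω
    by_cases hω : ω ∈ evZ 𝒜 Z
    · rw [Set.indicator_of_mem hω]
      refine Finset.prod_eq_one fun z hz => Finset.prod_eq_one fun j hj => ?_
      rw [Set.indicator_of_mem]
      · rfl
      · exact hω z hz j (Finset.mem_range.1 hj)
    · rw [Set.indicator_of_notMem hω]
      simp only [evZ, Set.mem_ofPred_eq, not_forall, not_not] at hω
      obtain ⟨z, hz, j, hj, hA⟩ := hω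
      refine Finset.prod_eq_zero hz (Finset.prod_eq_zero (Finset.mem_range.2 hj) ?_)
      exact Set.indicator_of_notMem (show (ω z).2 j ∉ (trj z ⁻¹' 𝒜)ᶜ from fun hn => hn hA) _
  rw [h1] at h
  rw [h]
  refine Finset.prod_congr rfl fun z _ => ?_
  rw [lintegral_indicator_one (hm z).compl, prob_compl_eq_one_sub (hm z),
    ENNReal.toReal_sub_of_le prob_le_one ENNReal.one_ne_top]
  simp

/-- VOID. -/
theorem void : LfStmt → LebStmt → VoidStmt := by
  intro hLf hLeb k lam s hlam 𝒜 h𝒜 hfin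
  classical
  have hm : ∀ z : Pt k, MeasurableSet (trj z ⁻¹' 𝒜) := fun z => meas_trj z h𝒜
  have hsum : ∑' z : Pt k, markLaw k s (trj z ⁻¹' 𝒜) = ∫⁻ x, walkLaw k s {y | (x, y) ∈ 𝒜} := by
    have h := hLeb k s (𝒜.indicator 1) (measurable_one.indicator h𝒜)
    have h1 : ∀ z : Pt k, ∫⁻ m, 𝒜.indicator (1 : Sp k × (ℕ → Sp k) → ENNReal)
        (fun a => (z a : ℝ) + m.1 a, m.2) ∂(markLaw k s) = markLaw k s (trj z ⁻¹' 𝒜) := by
      intro z
      rw [← lintegral_indicator_one (hm z)]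
      rfl
    have h2 : ∀ x : Sp k, ∫⁻ y, 𝒜.indicator (1 : Sp k × (ℕ → Sp k) → ENNReal) (x, y)
        ∂(walkLaw k s) = walkLaw k s {y | (x, y) ∈ 𝒜} := by
      intro x
      have hx : MeasurableSet {y | (x, y) ∈ 𝒜} := measurable_prodMk_left h𝒜
      exact lintegral_indicator_one hx
    simp_rw [h1, h2] at h
    exact h
  rw [← hsum] at hfin ⊢
  have hev : {ω : Cf k | ∀ v, alive ω v →
      (fun a => (v.1 a : ℝ) + ((ω v.1).2 v.2).1 a, ((ω v.1).2 v.2).2) ∉ 𝒜} =
      ⋂ Z : Finset (Pt k), evZ 𝒜 Z := by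
    ext ω
    simp only [evZ, Set.mem_ofPred_eq, Set.mem_iInter]
    constructor
    · intro h Z z _ j hj
      exact h (z, j) hj
    · intro h v hv
      exact h {v.1} v.1 (Finset.mem_singleton_self _) v.2 hv
  rw [hev]
  have hanti : Antitone fun Z : Finset (Pt k) => evZ 𝒜 Z := by
    intro Z Z' hZ ω hω z hz
    exact hω z (hZ hz)
  have hlim1 : Tendsto (fun Z : Finset (Pt k) => confLaw k lam s (evZ 𝒜 Z)) atTop
      (𝓝 (confLaw k lam s (⋂ Z : Finset (Pt k), evZ 𝒜 Z))) :=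
    tendsto_measure_iInter_atTop (fun Z => (meas_evZ 𝒜 h𝒜 Z).nullMeasurableSet) hanti
      ⟨∅, measure_ne_top _ _⟩
  have hlim2 : Tendsto (fun Z : Finset (Pt k) => confLaw k lam s (evZ 𝒜 Z)) atTop
      (𝓝 (ENNReal.ofReal (Real.exp
        (-(lam * (∑' z : Pt k, markLaw k s (trj z ⁻¹' 𝒜)).toReal))))) := by
    have h1 : ∀ Z : Finset (Pt k), confLaw k lam s (evZ 𝒜 Z) = ENNReal.ofReal (Real.exp
        (-(lam * ∑ z ∈ Z, (markLaw k s (trj z ⁻¹' 𝒜)).toReal))) := by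
      intro Z
      rw [conf_evZ hLf lam s hlam 𝒜 h𝒜 Z, ← ENNReal.ofReal_prod_of_nonneg
        (fun z _ => (Real.exp_pos _).le), ← Real.exp_sum]
      congr 2
      rw [Finset.mul_sum, Finset.sum_neg_distrib]
    simp_rw [h1]
    have h2 : Tendsto (fun Z : Finset (Pt k) => ∑ z ∈ Z, (markLaw k s (trj z ⁻¹' 𝒜)).toReal)
        atTop (𝓝 (∑' z : Pt k, markLaw k s (trj z ⁻¹' 𝒜)).toReal) := by
      rw [ENNReal.tsum_toReal_eq (fun z => measure_ne_top _ _)]
      exact (ENNReal.summable_toReal hfin).hasSum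
    have hc : Continuous fun x : ℝ => ENNReal.ofReal (Real.exp (-(lam * x))) :=
      ENNReal.continuous_ofReal.comp (by fun_prop)
    exact (hc.tendsto _).comp h2
  exact tendsto_nhds_unique hlim1 hlim2

end Pool.Agent.TP.H26
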